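import Pool.Agent.H175F.Final
import Pool.Agent.Helper856.Cw.Width

/-!
The class of (gem, `P₂ + P₃`)-free graphs has bounded clique-width; in particular, being
well-quasi-ordered by the induced subgraph relation would imply bounded clique-width for this class.
-/

set_option autoImplicit false

open SimpleGraph Pool.Agent.Helper856.Cw

namespace Pool.Agent.Results.MP_7588da_co.GemWqo

/-- `P_1 + P_4` on `{0,…,4}`: the path `0-1-2-3` and the isolated vertex `4`. -/
def P1P4 : SimpleGraph (Fin 5) := SimpleGraph.fromRel (fun a b => a.val + 1 = b.val ∧ b.val ≤ 3)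

/-- The gem is the complement of `P_1 + P_4`. -/
def gem : SimpleGraph (Fin 5) := P1P4ᶜ

/-- `P_2 + P_3` on `{0,…,4}`: the edge `01` and the path `2-3-4`. -/
def P2P3 : SimpleGraph (Fin 5) := SimpleGraph.fromRel (fun a b =>
  (a.val = 0 ∧ b.val = 1) ∨ (a.val = 2 ∧ b.val = 3) ∨ (a.val = 3 ∧ b.val = 4))

/-- The class of (gem, `P_2 + P_3`)-free graphs (on the vertex sets `{0,…,n-1}`). -/
def C (n : ℕ) (G : SimpleGraph (Fin n)) : Prop :=
  ¬ gem.IsIndContained G ∧ ¬ P2P3.IsIndContained G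

/-- A class of finite graphs is well-quasi-ordered by the induced subgraph relation: it has no
infinite antichain. -/
def InducedWqo (C : (n : ℕ) → SimpleGraph (Fin n) → Prop) : Prop :=
  ¬ ∃ (n : ℕ → ℕ) (G : (i : ℕ) → SimpleGraph (Fin (n i))), (∀ i, C (n i) (G i)) ∧
    ∀ i j, i ≠ j → ¬ (G i).IsIndContained (G j)

/-- A class of finite graphs has bounded clique-width. -/
def BoundedCliqueWidth (C : (n : ℕ) → SimpleGraph (Fin n) → Prop) : Prop :=
  ∃ k : ℕ, ∀ (n : ℕ) (G : SimpleGraph (Fin n)), C n G → cliqueWidth G ≤ k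

/-- the predicate used to translate label expressions -/
def Pr {k : ℕ} {V : Type} (S : Set V) (l : V → Fin k) (H : SimpleGraph V) : Prop :=
  (∀ u v, H.Adj u v → u ∈ S ∧ v ∈ S) ∧
  ∃ (W : Type) (G' : SimpleGraph W) (m : W → Fin k) (e : W ≃ S), CwBuilt k W G' m ∧
    (∀ a b, G'.Adj a b ↔ H.Adj (e a) (e b)) ∧ ∀ a, m a = l (e a)

lemma cw_of {k : ℕ} {V : Type} (G : SimpleGraph V)
    (h : ∃ l : V → Fin k, ∀ P : Set V → (V → Fin k) → SimpleGraph V → Prop,
      (∀ (v : V) (l0 : V → Fin k), P ({v} : Set V) l0 ⊥) →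
      (∀ (S1 S2 : Set V) (l1 l2 l0 : V → Fin k) (H1 H2 : SimpleGraph V),
          P S1 l1 H1 → P S2 l2 H2 → Disjoint S1 S2 →
          (∀ u ∈ S1, l0 u = l1 u) → (∀ u ∈ S2, l0 u = l2 u) →
          P (S1 ∪ S2) l0 (H1 ⊔ H2)) →
      (∀ (S : Set V) (l0 : V → Fin k) (H H' : SimpleGraph V) (i j : Fin k),
          P S l0 H → i ≠ j →
          (∀ u v : V, H'.Adj u v ↔ (H.Adj u v ∨
              (u ∈ S ∧ v ∈ S ∧ ((l0 u = i ∧ l0 v = j) ∨ (l0 u = j ∧ l0 v = i))))) →
          P S l0 H') →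
      (∀ (S : Set V) (l0 l' : V → Fin k) (H : SimpleGraph V) (i j : Fin k),
          P S l0 H →
          (∀ u ∈ S, (l0 u = i → l' u = j) ∧ (l0 u ≠ i → l' u = l0 u)) →
          P S l' H) →
      P Set.univ l G) : CwLE G k := by
  classical
  obtain ⟨l, hl⟩ := h
  obtain ⟨-, W, G', m, e, hb, he, -⟩ := hl Pr (by
    intro v l0
    refine ⟨fun u v h => absurd h (by simp), Unit, ⊥, fun _ => l0 v,
      ⟨fun _ => ⟨v, rfl⟩, fun _ => (), fun _ => rfl, fun x => Subtype.ext x.2.symm⟩,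
      CwBuilt.single _, by simp, fun _ => rfl⟩) (by
    rintro S1 S2 l1 l2 l0 H1 H2 ⟨hs1, W1, G1, m1, e1, hb1, he1, hm1⟩
      ⟨hs2, W2, G2, m2, e2, hb2, he2, hm2⟩ hd h1 h2
    have n12 : ∀ (a : S1) (b : S2), ¬ H1.Adj a b ∧ ¬ H2.Adj a b := by
      intro a b
      exact ⟨fun h => Set.disjoint_left.1 hd (hs1 _ _ h).2 b.2,
        fun h => Set.disjoint_left.1 hd a.2 (hs2 _ _ h).1⟩
    have n11 : ∀ (a b : S1), ¬ H2.Adj a b := fun a b h =>
      Set.disjoint_left.1 hd a.2 (hs2 _ _ h).1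
    have n22 : ∀ (a b : S2), ¬ H1.Adj a b := fun a b h =>
      Set.disjoint_left.1 hd (hs1 _ _ h).1 a.2
    refine ⟨?_, W1 ⊕ W2, G1 ⊕g G2, Sum.elim m1 m2,
      (Equiv.sumCongr e1 e2).trans (Equiv.Set.union hd).symm,
      CwBuilt.union W1 W2 G1 G2 m1 m2 hb1 hb2, ?_, ?_⟩
    · rintro u v (h | h)
      · exact ⟨Or.inl (hs1 _ _ h).1, Or.inl (hs1 _ _ h).2⟩
      · exact ⟨Or.inr (hs2 _ _ h).1, Or.inr (hs2 _ _ h).2⟩
    · rintro (a | a) (b | b)
      · simp [he1, n11]
      · have := n12 (e1 a) (e2 b)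
        simp [this]
      · have := n12 (e1 b) (e2 a)
        simp [SimpleGraph.adj_comm, this]
      · simp [he2, n22]
    · rintro (a | a)
      · simp [hm1, h1]
      · simp [hm2, h2]) (by
    rintro S l0 H H' i j ⟨hs, W, G', m, e, hb, he, hm⟩ hij h
    refine ⟨?_, W, _, m, e, CwBuilt.join W G' m i j hij hb, ?_, hm⟩
    · intro u v huv
      rcases (h u v).1 huv with h1 | ⟨h1, h2, -⟩
      · exact hs _ _ h1
      · exact ⟨h1, h2⟩
    · intro a b
      rw [h, SimpleGraph.sup_adj, SimpleGraph.fromRel_adj, he, hm, hm]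
      constructor
      · rintro (h1 | ⟨-, h1 | h1⟩)
        · exact Or.inl h1
        · exact Or.inr ⟨(e a).2, (e b).2, Or.inl h1⟩
        · exact Or.inr ⟨(e a).2, (e b).2, Or.inr ⟨h1.2, h1.1⟩⟩
      · rintro (h1 | ⟨-, -, h1 | h1⟩)
        · exact Or.inl h1
        · refine Or.inr ⟨?_, Or.inl h1⟩
          rintro rfl
          exact hij (h1.1.symm.trans h1.2)
        · refine Or.inr ⟨?_, Or.inr ⟨h1.2, h1.1⟩⟩
          rintro rfl
          exact hij (h1.2.symm.trans h1.1)) (by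
    rintro S l0 l' H i j ⟨hs, W, G', m, e, hb, he, hm⟩ h
    refine ⟨hs, W, G', _, e, CwBuilt.relabel W G' m i j hb, he, ?_⟩
    intro a
    have h1 := h (e a) (e a).2
    by_cases h2 : l0 (e a) = i
    · rw [if_pos (by rw [hm]; exact h2), h1.1 h2]
    · rw [if_neg (by rw [hm]; exact h2), h1.2 h2, hm])
  refine ⟨W, G', m, hb, ⟨⟨(e.trans (Equiv.Set.univ V)).symm, ?_⟩⟩⟩
  intro a b
  rw [he]
  simp

/-- The class of (gem, `P_2 + P_3`)-free graphs has bounded clique-width; hence its being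
well-quasi-ordered by the induced subgraph relation implies that it has bounded clique-width. -/
theorem result : (InducedWqo C → BoundedCliqueWidth C) ∧ BoundedCliqueWidth C := by
  have key : BoundedCliqueWidth C := by
    obtain ⟨k, hk⟩ := Pool.Agent.H175G.frozen_of Pool.Agent.H175G.main_stmt
    refine ⟨k, fun n G hG => ?_⟩
    rcases Nat.eq_zero_or_pos n with rfl | hn
    · have h1 : {k | CwLE G k} = ∅ := by
        ext k
        simp only [Set.mem_setOf_eq, Set.mem_empty_iff_false, iff_false]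
        rintro ⟨W, G', l, hb, ⟨e⟩⟩
        have hW : IsEmpty W := e.symm.toEquiv.isEmpty
        have key : ∀ (W : Type) (G' : SimpleGraph W) (l : W → Fin k), CwBuilt k W G' l →
            Nonempty W := by
          intro W G' l hb
          induction hb with
          | single i => exact ⟨()⟩
          | union V W G H l m _ _ ih1 _ => obtain ⟨v⟩ := ih1; exact ⟨Sum.inl v⟩
          | join V G l i j _ _ ih => exact ih
          | relabel V G l i j _ ih => exact ih
        obtain ⟨w⟩ := key W G' l hb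
        exact hW.false w
      unfold cliqueWidth
      rw [h1]
      simp
    · have : Nonempty (Fin n) := ⟨⟨0, hn⟩⟩
      apply Nat.sInf_le
      refine cw_of G (hk (Fin n) G ?_ ?_)
      · rw [← not_nonempty_iff]
        exact hG.1
      · rw [← not_nonempty_iff]
        exact hG.2
  exact ⟨fun _ => key, key⟩

end Pool.Agent.Results.MP_7588da_co.GemWqo
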